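import Pool.Agent.TH182.NC.Main
import Pool.Agent.TH215.NC.Fin
import Pool.Agent.TH215.TM.Asm
import Pool.Agent.TH182.J302

/-!
# A Gorenstein threefold with a crepant resolution and without a non-commutative crepant
resolution

Let `R = ℂ[x, y, z, w] / (w⁴ + x³ + y³ + z³)`, a normal Gorenstein domain of dimension three of
finite type over `ℂ`. The blow-up `Y` of the origin is a crepant resolution of `Spec R`, but there
is no non-commutative crepant resolution of `R`.
-/

set_option autoImplicit false

open CategoryTheory Limits AlgebraicGeometry Abelian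
open Pool.Agent.Helper165 Pool.Agent.TH215.TM Pool.Agent.TH215.NC

namespace Pool.Agent.Results.MP_edf92a_ag.NoNCCR

/-- `R` is a normal Gorenstein domain of dimension three, of finite type over `ℂ`. Gorenstein
means that `R` has finite injective dimension over itself (here at most three). -/
structure IsNormalGorensteinThreefold (R : Type) [CommRing R] [Algebra ℂ R] : Prop where
  domain : IsDomain R
  normal : IsIntegrallyClosed R
  gorenstein : HasInjectiveDimensionLT (ModuleCat.of R R) 4
  dim : ringKrullDim R = 3
  finiteType : Algebra.FiniteType ℂ R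

/-- `Spec R` has a crepant resolution (for `R` of dimension three over `ℂ`). -/
def HasCrepantResolution (R : Type) [CommRing R] [Algebra ℂ R] : Prop :=
  ∃ (Y : Scheme.{0}) (_ : IsIntegral Y) (f : Y ⟶ Spec (CommRingCat.of R)),
    IsCrepantResolution 3 f (Spec.map (CommRingCat.ofHom (algebraMap ℂ R)))

/-- `R` has a non-commutative crepant resolution. -/
def HasNCCR (R : Type) [CommRing R] : Prop :=
  ∃ (M : Type) (_ : AddCommGroup M) (_ : Module R M), IsNCCR R M

/-- The ring `R = ℂ[x, y, z, w] / (w⁴ + x³ + y³ + z³)` is a normal Gorenstein domain of dimension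
three, of finite type over `ℂ`; `Spec R` has a crepant resolution, but `R` has no
non-commutative crepant resolution. -/
theorem result : IsNormalGorensteinThreefold RR ∧ HasCrepantResolution RR ∧ ¬ HasNCCR RR := by
  have hR := Pool.Agent.TH480.J295.isDomain_RR
  have hB := Pool.Agent.TH480.J295.isDomain_BB
  have hY : IsIntegral YY := Pool.Agent.TH480.J303.YY_integral
  refine ⟨?_, ⟨YY, hY, ff, ?_⟩, ?_⟩
  · exact
      { domain := hR
        normal := Pool.Agent.TH480.J296.integrallyClosed_RR
        gorenstein := gorenstein_RR
        dim := Pool.Agent.TH480.J296.dim_RR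
        finiteType := Algebra.FiniteType.trans (S := S3) inferInstance inferInstance }
  · exact
      { smooth := Pool.Agent.TH480.J303.ff_smooth Pool.Agent.TH480.J298.BB_smooth
          Pool.Agent.TH480.J297.chartW Pool.Agent.TH480.J297.chartX
        proper := Pool.Agent.TH480.J303.ff_proper
        birational := Pool.Agent.TH480.J303.ff_birational
        crepant := Pool.Agent.TH182.TMC.crepant Pool.Agent.TH480.J297.chartW
          Pool.Agent.TH480.J297.chartX }
  · rintro ⟨M, _, _, hM⟩
    have h1 := hM.nontrivial
    have h2 := hM.finite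
    have h3 := hM.reflexive
    have hmax : J3.IsMaximal := by
      rw [J3_eq]
      refine RingHom.ker_isMaximal_of_surjective evR fun c => ⟨algebraMap S3 RR
        (MvPolynomial.C c), ?_⟩
      rw [evR_of, MvPolynomial.constantCoeff_C]
    have hdim : ringKrullDim (Localization.AtPrime J3) ≤ ((3 : ℕ) : WithBot ℕ∞) := by
      rw [IsLocalization.AtPrime.ringKrullDim_eq_height J3 (Localization.AtPrime J3),
        Pool.Agent.TH159.TM.height_RR J3 hmax]
      exact le_rfl
    have hgl := (hM.gldim J3 3).2 hdim
    exact Pool.Agent.TH182.NC.no_nccr M hM.cm 4 (fun X => gl_loc M J3 3 hgl X)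

end Pool.Agent.Results.MP_edf92a_ag.NoNCCR
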